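import Pool.Agent.Helper826_BF.Regular

set_option autoImplicit false

/-!
# Balls avoiding the `k`-skeleton of a spherical or hyperbolic simplex

Both halves of Q1 hold: for a `d`-simplex contained in a closed ball of radius `R` (with `R < π/2` in
the sphere), a ball centred at a point of the simplex that misses the `k`-skeleton has radius at most
`r_k(R)`, the distance from the centre to the `k`-faces of the inscribed regular simplex, with
`tan r_k(R) = √((d-k)/(d(k+1))) tan R` in the sphere and the same formula with `tanh` in hyperbolic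
space.
-/

namespace Pool.Agent.Results.MP_fc7dfc_gt.BothGeometries

open Pool.Agent.Helper826_BF

theorem result (d k : ℕ) (hkd : k < d) :
    -- the sphere `S^d`: the unit sphere of `ℝ^(d+1)`, the distance is the angle
    (∀ R : ℝ, 0 < R → R < Real.pi / 2 → ∀ c : EuclideanSpace ℝ (Fin (d + 1)), ‖c‖ = 1 →
      ∀ v : Fin (d + 1) → EuclideanSpace ℝ (Fin (d + 1)), (∀ i, ‖v i‖ = 1) →
      LinearIndependent ℝ v →
      -- the inequality
      (SHull v Finset.univ ⊆ {y | ‖y‖ = 1 ∧ InnerProductGeometry.angle c y ≤ R} →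
        ∀ x ∈ SHull v Finset.univ, ∀ ρ : ℝ,
        Disjoint {y | ‖y‖ = 1 ∧ InnerProductGeometry.angle x y < ρ}
          (⋃ (s : Finset (Fin (d + 1))) (_ : s.card = k + 1), SHull v s) →
        ρ ≤ Real.arctan (kap d k * Real.tan R)) ∧
      -- the value for the inscribed regular simplex
      ((∀ i, InnerProductGeometry.angle c (v i) = R) →
        (∃ b : ℝ, ∀ i j, i ≠ j → InnerProductGeometry.angle (v i) (v j) = b) →
        ∀ s : Finset (Fin (d + 1)), s.card = k + 1 →
        IsLeast ((fun y => InnerProductGeometry.angle c y) '' SHull v s)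
          (Real.arctan (kap d k * Real.tan R)))) ∧
    -- the hyperbolic space `H^d`: the hyperboloid model in `ℝ × ℝ^d`
    (∀ R : ℝ, 0 < R → ∀ c ∈ Hyp d, ∀ v : Fin (d + 1) → ℝ × EuclideanSpace ℝ (Fin d),
      (∀ i, v i ∈ Hyp d) → LinearIndependent ℝ v →
      -- the inequality
      (HHull v Finset.univ ⊆ {y | y ∈ Hyp d ∧ hdist c y ≤ R} →
        ∀ x ∈ HHull v Finset.univ, ∀ ρ : ℝ,
        Disjoint {y | y ∈ Hyp d ∧ hdist x y < ρ}
          (⋃ (s : Finset (Fin (d + 1))) (_ : s.card = k + 1), HHull v s) →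
        ρ ≤ Real.artanh (kap d k * Real.tanh R)) ∧
      -- the value for the inscribed regular simplex
      ((∀ i, hdist c (v i) = R) → (∃ b : ℝ, ∀ i j, i ≠ j → hdist (v i) (v j) = b) →
        ∀ s : Finset (Fin (d + 1)), s.card = k + 1 →
        IsLeast ((fun y => hdist c y) '' HHull v s) (Real.artanh (kap d k * Real.tanh R)))) := by
  refine ⟨fun R hR0 hR c hc v hv hli => ⟨fun hS x hx ρ hρ => ?_, fun hcv hreg s hs => ?_⟩,
    fun R hR0 c hc v hv hli => ⟨fun hS x hx ρ hρ => ?_, fun hcv hreg s hs => ?_⟩⟩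
  · exact sph_main d k hkd R hR0 hR c hc v hv hli hS x hx ρ hρ
  · obtain ⟨b, hb⟩ := hreg
    exact sph_regular d k hkd R hR0 hR c hc v hv hli hcv b hb s hs
  · exact hyp_main d k hkd R hR0 c hc v hv hli hS x hx ρ hρ
  · obtain ⟨b, hb⟩ := hreg
    exact hyp_regular d k hkd R hR0 c hc v hv hli hcv b hb s hs

end Pool.Agent.Results.MP_fc7dfc_gt.BothGeometries
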